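import Pool.Agent.Lib.MP_f0be4b_lc.Pow

set_option autoImplicit false

namespace Pool.Agent.Results.MP_f0be4b_lc.PowerSet

universe u

/-- A copy `S ↦ C S` of the power set of the natural numbers among sets of reals ordered by
embeddability, in which unions are suprema and intersections are infima among all chains. The
first clause spells out the case of the incomparable chains `C {0}` and `C {1}`. -/
theorem result : ∃ C : Set ℕ → Set ℝ,
    ((¬ ∃ f : C {0} → C {1}, StrictMono f) ∧ (¬ ∃ f : C {1} → C {0}, StrictMono f) ∧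
      C {0} ⊆ C {0, 1} ∧ C {1} ⊆ C {0, 1} ∧ ∀ (X : Type u) [LinearOrder X],
        (∃ f : C {0} → X, StrictMono f) → (∃ g : C {1} → X, StrictMono g) →
          ∃ h : C {0, 1} → X, StrictMono h) ∧
    (∀ S T : Set ℕ, S ⊆ T → C S ⊆ C T) ∧
    (∀ S T : Set ℕ, (∃ f : C S → C T, StrictMono f) → S ⊆ T) ∧
    ∀ F : Set (Set ℕ), F.Nonempty → ∀ (X : Type u) [LinearOrder X],
      ((∀ S ∈ F, ∃ f : C S → X, StrictMono f) → ∃ h : C (⋃₀ F) → X, StrictMono h) ∧
      ((∀ S ∈ F, ∃ f : X → C S, StrictMono f) → ∃ h : X → C (⋂₀ F), StrictMono h) := by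
  obtain ⟨C, h1, h2, h3⟩ := Pool.Agent.Lib.MP_f0be4b_lc.exists_pow.{u}
  refine ⟨C, ⟨fun h => by simpa using h2 _ _ h, fun h => by simpa using h2 _ _ h,
    h1 _ _ (by simp), h1 _ _ (by simp), fun X _ hf hg => ?_⟩, h1, h2, h3⟩
  have e : ⋃₀ ({{0}, {1}} : Set (Set ℕ)) = {0, 1} := by
    rw [Set.sUnion_pair, Set.singleton_union]
  exact e ▸ (h3 _ (by simp) X).1 (by rintro S (rfl | rfl) <;> assumption)

end Pool.Agent.Results.MP_f0be4b_lc.PowerSet
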